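import Pool.Agent.helper56.NZ.Spec

/-!
# Project nz: (MP_af9036_an), module TYP: typical points
(adapted from `Pool/Agent/helper89/NR/FLN.lean`)
-/

set_option autoImplicit false

open Complex Metric Set Filter Topology MeasureTheory Pool.Agent.helper98.ILF
  Pool.Agent.helper16.Multibrot

open HY (UD T S hd UN RM VV SG Orb fz)

noncomputable section

namespace NZ

theorem TYP_ball {n : ℕ} {c : ℂ} (h : c ∉ closure (hyperbolic n)) :
    ∃ r : ℝ, 0 < r ∧ Disjoint (ball c r) (hyperbolic n) := by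
  rw [Metric.mem_closure_iff] at h
  push Not at h
  obtain ⟨r, hr, h'⟩ := h
  refine ⟨r, hr, Set.disjoint_left.2 fun b hb hb' => ?_⟩
  have := h' b hb'
  rw [mem_ball, dist_comm] at hb
  linarith

theorem TYP (hLAM : LAM_stmt) (hBRG : BR.BRG_stmt) (hSTR : EX.STR_stmt) (hNZR : EX.NZR_stmt) :
    TYP_stmt := by
  intro n hn c hc hcl
  have hn2 : 2 ≤ n := by omega
  obtain ⟨r, hr, hd⟩ := TYP_ball hcl
  obtain ⟨-, -, -, v, m, μ, -, -, -, -, -, -, -, -, -, -, -, hμ, -⟩ := hBRG n c r hn2 hr hc hd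
  have hμ' : IsInvariantLineField (EX.ff n c) μ := hμ
  have hrec : ∀ᵐ x : ℂ, x ∈ filled n c → ∀ ε > (0 : ℝ), ∃ k : ℕ, ‖(EX.ff n c)^[k] x‖ < ε := by
    have h1 : ∀ᵐ x : ℂ, ∀ k : ℕ, x ∉ UP.Lam n c (1 / ((k : ℝ) + 1)) := by
      rw [ae_all_iff]
      intro k
      exact measure_eq_zero_iff_ae_notMem.1 (hLAM n hn2 c hc hcl _ (by positivity))
    filter_upwards [h1] with x hx hxf ε hε
    obtain ⟨m, hm⟩ := exists_nat_one_div_lt hε
    have h2 := hx m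
    by_contra hcon
    refine h2 ⟨hxf, fun k => ?_⟩
    by_contra h3
    exact hcon ⟨k, (not_le.1 h3).trans hm⟩
  have hstr := hSTR n c μ hn hμ'
  have hnzr := hNZR n c (by omega)
  obtain ⟨x, hx, hs, hr', hz⟩ : ∃ x : ℂ, μ x ≠ 0 ∧
      (μ x ≠ 0 → ∀ q : ℝ, q < 1 → ∃ T : ℕ, EX.Star n c x q T) ∧
      (x ∈ filled n c → ∀ ε > (0 : ℝ), ∃ k : ℕ, ‖(EX.ff n c)^[k] x‖ < ε) ∧
      (∀ k : ℕ, (EX.ff n c)^[k] x ≠ 0) := by
    have hall := hstr.and (hrec.and hnzr)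
    by_contra hcon
    have hsub : {z | μ z ≠ 0} ⊆ {x | ¬ ((μ x ≠ 0 → ∀ q : ℝ, q < 1 → ∃ T : ℕ, EX.Star n c x q T) ∧
      (x ∈ filled n c → ∀ ε > (0 : ℝ), ∃ k : ℕ, ‖(EX.ff n c)^[k] x‖ < ε) ∧
      (∀ k : ℕ, (EX.ff n c)^[k] x ≠ 0))} := by
      intro x hx hP
      exact hcon ⟨x, hx, hP.1, hP.2.1, hP.2.2⟩
    have h0 : volume {z | μ z ≠ 0} = 0 := measure_mono_null hsub (ae_iff.1 hall)
    have hpos := hμ'.2.2.1
    rw [h0] at hpos
    exact lt_irrefl _ hpos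
  have hxJ : x ∈ juliaSet (EX.ff n c) := hμ'.2.2.2.1 hx
  have hxf : x ∈ filled n c := by
    have h1 := juliaSet_subset hn2 c hxJ
    exact (isCompact_filled n c).isClosed.frontier_subset h1
  exact ⟨x, hxf, hs hx, hz, hr' hxf⟩

end NZ
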